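import Mathlib
import Pool.Agent.N783.PF.Lat

/-!
# The neighbour lattice at a weakly divisible prime (project PF of helper783, part NBR)
-/

set_option autoImplicit false

open Polynomial Matrix NumberField
open scoped nonZeroDivisors

namespace Pool.Agent.N225.PF

open Pool.Agent.N783.PF

section inv

variable {F : Type} [Field F] [NumberField F]

/-- The inverse of an ideal. -/
noncomputable def Jn (𝔭 : Ideal (𝓞 F)) : Submodule (𝓞 F) F :=
  (((𝔭 : FractionalIdeal (𝓞 F)⁰ F)⁻¹ : FractionalIdeal (𝓞 F)⁰ F) : Submodule (𝓞 F) F)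

theorem int_iff {x : F} : IsIntegral ℤ x ↔ ∃ y : 𝓞 F, (y : F) = x :=
  IsIntegralClosure.isIntegral_iff

theorem int_co (y : 𝓞 F) : IsIntegral ℤ (y : F) := int_iff.2 ⟨y, rfl⟩

variable {𝔭 : Ideal (𝓞 F)}

theorem mem_Jn (h0 : 𝔭 ≠ ⊥) {a : F} : a ∈ Jn 𝔭 ↔ ∀ p ∈ 𝔭, IsIntegral ℤ (a * (p : F)) := by
  unfold Jn
  rw [FractionalIdeal.mem_coe, FractionalIdeal.mem_inv_iff (FractionalIdeal.coeIdeal_ne_zero.2 h0)]
  constructor
  · intro h p hp
    obtain ⟨y, hy⟩ := (FractionalIdeal.mem_one_iff _).1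
      (h p ((FractionalIdeal.mem_coeIdeal _).2 ⟨p, hp, rfl⟩))
    exact int_iff.2 ⟨y, hy⟩
  · intro h y hy
    obtain ⟨p, hp, rfl⟩ := (FractionalIdeal.mem_coeIdeal _).1 hy
    exact (FractionalIdeal.mem_one_iff _).2 (int_iff.1 (h p hp))

theorem mem_p (h0 : 𝔭 ≠ ⊥) {x : F} (h : ∀ a ∈ Jn 𝔭, IsIntegral ℤ (a * x)) :
    ∃ p ∈ 𝔭, (p : F) = x := by
  have h1 : (𝔭 : FractionalIdeal (𝓞 F)⁰ F) ≠ 0 := FractionalIdeal.coeIdeal_ne_zero.2 h0
  have h2 : x ∈ ((𝔭 : FractionalIdeal (𝓞 F)⁰ F)⁻¹)⁻¹ := by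
    rw [FractionalIdeal.mem_inv_iff (inv_ne_zero h1)]
    intro a ha
    rw [mul_comm]
    exact (FractionalIdeal.mem_one_iff _).2 (int_iff.1 (h a ha))
  rw [inv_inv] at h2
  exact (FractionalIdeal.mem_coeIdeal _).1 h2

theorem fg_Jn : (Jn 𝔭).FG :=
  (Submodule.fg_top _).1 ((FractionalIdeal.isNoetherian
    ((𝔭 : FractionalIdeal (𝓞 F)⁰ F)⁻¹)).noetherian ⊤)

theorem one_Jn (h0 : 𝔭 ≠ ⊥) (y : 𝓞 F) : (y : F) ∈ Jn 𝔭 := by
  rw [mem_Jn h0]
  intro p _
  exact (int_co y).mul (int_co p)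

theorem int_Jn2 (h0 : 𝔭 ≠ ⊥) {a b : F} (ha : a ∈ Jn 𝔭) (hb : b ∈ Jn 𝔭) {e : 𝓞 F}
    (he : e ∈ 𝔭 ^ 2) : IsIntegral ℤ (a * (b * (e : F))) := by
  rw [pow_two] at he
  refine Submodule.mul_induction_on he ?_ ?_
  · intro p hp q hq
    have h1 := ((mem_Jn h0).1 ha p hp).mul ((mem_Jn h0).1 hb q hq)
    have h2 : a * (b * ((p * q : 𝓞 F) : F)) = a * (p : F) * (b * (q : F)) := by
      push_cast
      ring
    rw [h2]
    exact h1
  · intro p q hp hq
    have h2 : a * (b * ((p + q : 𝓞 F) : F)) = a * (b * (p : F)) + a * (b * (q : F)) := by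
      push_cast
      ring
    rw [h2]
    exact hp.add hq

theorem mem_p2 (h0 : 𝔭 ≠ ⊥) {a : F} (ha : a ∈ Jn 𝔭) {e : 𝓞 F} (he : e ∈ 𝔭 ^ 2) :
    ∃ p ∈ 𝔭, (p : F) = a * e :=
  mem_p h0 fun _ hb => int_Jn2 h0 hb ha he

end inv

section top

variable {F L : Type} [Field F] [NumberField F] [Field L] [NumberField L] [Algebra F L]
  {g : ℕ} {f : (𝓞 F)[X]} {θ : L}

theorem top_pow (hG : IsGen g f θ) (i : Fin (2 * g + 1)) :
    hG.top (θ ^ (i : ℕ)) = if i = Fin.last (2 * g) then 1 else 0 := by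
  rw [← hG.basis_apply, IsGen.top, Module.Basis.coord_apply, Module.Basis.repr_self,
    Finsupp.single_apply]

theorem top_le (hG : IsGen g f θ) (p : F[X]) (hp : p.natDegree < 2 * g + 1) :
    hG.top (aeval θ p) = p.coeff (2 * g) := by
  rw [aeval_eq_sum_range' hp, Finset.sum_range, map_sum,
    Finset.sum_eq_single (Fin.last (2 * g))]
  · rw [map_smul, top_pow, if_pos rfl]
    simp
  · intro i _ hi
    rw [map_smul, top_pow, if_neg hi, smul_zero]
  · intro h
    exact absurd (Finset.mem_univ _) h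

theorem aeval_fF (x : L) (v : (𝓞 F)[X]) : aeval x (fF v) = aeval x v :=
  aeval_map_algebraMap F x v

theorem top_int (hG : IsGen g f θ) (v : (𝓞 F)[X]) : IsIntegral ℤ (hG.top (aeval θ v)) := by
  have hr : aeval θ f = 0 := by rw [← aeval_fF]; exact hG.root
  rw [← aeval_modByMonic_eq_self_of_root hr, ← aeval_fF, top_le hG, fF, coeff_map]
  · exact int_co _
  · have h1 : f ≠ 1 := by
      intro h
      have h2 := hG.deg
      rw [h, natDegree_one] at h2
      omega
    have h3 := natDegree_modByMonic_lt v hG.mon h1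
    rw [hG.deg] at h3
    exact (natDegree_map_le).trans_lt h3

theorem top_sh (hG : IsGen g f θ) (c : 𝓞 F) (v : (𝓞 F)[X]) :
    IsIntegral ℤ (hG.top (aeval (θ - algebraMap F L (c : F)) v)) := by
  have h1 : aeval (θ - algebraMap F L (c : F)) v = aeval θ (v.comp (X - C c)) := by
    rw [aeval_comp]
    simp only [map_sub, aeval_X, aeval_C]
    rfl
  rw [h1]
  exact top_int hG _

theorem top_le_sh (hG : IsGen g f θ) (c : F) (p : F[X]) (hp : p.natDegree < 2 * g + 1) :
    hG.top (aeval (θ - algebraMap F L c) p) = p.coeff (2 * g) := by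
  have h1 : aeval (θ - algebraMap F L c) p = aeval θ (p.comp (X - C c)) := by
    rw [aeval_comp]
    simp
  have h2 : (p.comp (X - C c)).natDegree = p.natDegree := by
    rw [natDegree_comp, natDegree_X_sub_C, mul_one]
  rw [h1, top_le hG _ (by rw [h2]; exact hp)]
  rcases (Nat.lt_succ_iff.1 hp).lt_or_eq with h | h
  · rw [coeff_eq_zero_of_natDegree_lt (by rw [h2]; exact h), coeff_eq_zero_of_natDegree_lt h]
  · rw [← h]
    conv_lhs => rw [← h2]
    change (p.comp (X - C c)).leadingCoeff = p.leadingCoeff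
    rw [leadingCoeff_comp (by rw [natDegree_X_sub_C]; norm_num), leadingCoeff_X_sub_C, one_pow,
      mul_one]

theorem rep (hG : IsGen g f θ) (c : F) (y : L) :
    ∃ P : F[X], P.natDegree < 2 * g + 1 ∧ y = aeval (θ - algebraMap F L c) P := by
  obtain ⟨d, hd⟩ := hG.gen y
  refine ⟨(∑ i : Fin (2 * g + 1), C (d i) * X ^ (i : ℕ)).comp (X + C c), ?_, ?_⟩
  · rw [natDegree_comp, natDegree_X_add_C, mul_one, Nat.lt_succ_iff]
    refine natDegree_sum_le_of_forall_le _ _ fun i _ => ?_
    exact (natDegree_C_mul_X_pow_le _ _).trans (Nat.lt_succ_iff.1 i.2)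
  · rw [hd, aeval_comp]
    simp

/-- The elements which pair integrally with `x`. -/
noncomputable def D (hG : IsGen g f θ) (x : L) : Submodule (𝓞 F) L where
  carrier := {y | IsIntegral ℤ (hG.top (x * y))}
  zero_mem' := by
    show IsIntegral ℤ (hG.top (x * 0))
    rw [mul_zero, map_zero]
    exact isIntegral_zero
  add_mem' := by
    intro a b ha hb
    show IsIntegral ℤ (hG.top (x * (a + b)))
    rw [mul_add, map_add]
    exact IsIntegral.add ha hb
  smul_mem' := by
    intro m a ha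
    show IsIntegral ℤ (hG.top (x * (m • a)))
    have h : x * (m • a) = (m : F) • (x * a) := by
      rw [Algebra.smul_def, Algebra.smul_def]
      show x * (algebraMap F L (m : F) * a) = _
      ring
    rw [h, map_smul, smul_eq_mul]
    exact (int_co m).mul ha

theorem mem_D (hG : IsGen g f θ) {x y : L} : y ∈ D hG x ↔ IsIntegral ℤ (hG.top (x * y)) :=
  Iff.rfl

end top

theorem nbr : S_NBR := by
  intro g F L _ _ _ _ _ f θ 𝔭 hg h𝔭 h𝔭0 h2 hG hw
  obtain ⟨c, hc0, hc1⟩ := hw
  obtain ⟨t, ht⟩ : ∃ t : L, t = θ - algebraMap F L (c : F) := ⟨_, rfl⟩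
  have hθ : θ = t + algebraMap F L (c : F) := by rw [ht]; ring
  -- the polynomials
  obtain ⟨H, hH⟩ : ∃ H : (𝓞 F)[X], H = f.comp (X + C c) := ⟨_, rfl⟩
  have hHm : H.Monic := by rw [hH]; exact hG.mon.comp_X_add_C c
  have hHd : H.natDegree = 2 * g + 1 := by
    rw [hH, natDegree_comp, natDegree_X_add_C, mul_one, hG.deg]
  have hH0 : H.coeff 0 = f.eval c := by
    rw [hH, ← taylor_apply, taylor_coeff_zero]
  have hH1 : H.coeff 1 = (derivative f).eval c := by
    rw [hH, ← taylor_apply, taylor_coeff_one]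
  have hHt : aeval t H = 0 := by
    rw [hH, aeval_comp]
    have h1 : aeval t (X + C c : (𝓞 F)[X]) = θ := by
      rw [hθ, map_add, aeval_X, aeval_C]
      rfl
    rw [h1, ← aeval_fF]
    exact hG.root
  obtain ⟨Q, hQ⟩ : ∃ Q : (𝓞 F)[X], Q = H.divX := ⟨_, rfl⟩
  obtain ⟨G, hGd⟩ : ∃ G : (𝓞 F)[X], G = Q.divX := ⟨_, rfl⟩
  have hQc : ∀ n, Q.coeff n = H.coeff (n + 1) := by
    intro n
    rw [hQ, coeff_divX]
  have hGc : ∀ n, G.coeff n = H.coeff (n + 2) := by
    intro n
    rw [hGd, coeff_divX, hQc]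
  obtain ⟨a0, ha0⟩ : ∃ a0, a0 = f.eval c := ⟨_, rfl⟩
  obtain ⟨a1, ha1⟩ : ∃ a1, a1 = (derivative f).eval c := ⟨_, rfl⟩
  rw [← ha0] at hc0 hH0
  rw [← ha1] at hc1 hH1
  have hQe : t * aeval t Q = -algebraMap F L (a0 : F) := by
    have h1 := congrArg (aeval t) (divX_mul_X_add H)
    rw [map_add, map_mul, aeval_X, aeval_C, hHt, hH0, ← hQ] at h1
    have h3 : algebraMap (𝓞 F) L a0 = algebraMap F L (a0 : F) := rfl
    rw [h3] at h1
    linear_combination h1
  have hQG : aeval t Q = t * aeval t G + algebraMap F L (a1 : F) := by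
    have h1 := congrArg (aeval t) (divX_mul_X_add Q)
    rw [map_add, map_mul, aeval_X, aeval_C, hQc, hH1, ← hGd] at h1
    have h3 : algebraMap (𝓞 F) L a1 = algebraMap F L (a1 : F) := rfl
    rw [h3] at h1
    linear_combination -h1
  have hQ1 : Q.coeff (2 * g) = 1 := by
    rw [hQc, ← hHd]
    exact hHm
  have hQd : Q.natDegree < 2 * g + 1 := by
    rw [Nat.lt_succ_iff, natDegree_le_iff_coeff_eq_zero]
    intro n hn
    rw [hQc]
    exact coeff_eq_zero_of_natDegree_lt (by omega)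
  have hG0 : G.coeff (2 * g) = 0 := by
    rw [hGc]
    exact coeff_eq_zero_of_natDegree_lt (by omega)
  have hGd' : G.natDegree < 2 * g + 1 := by
    rw [Nat.lt_succ_iff, natDegree_le_iff_coeff_eq_zero]
    intro n hn
    rw [hGc]
    exact coeff_eq_zero_of_natDegree_lt (by omega)
  -- the element `y`
  obtain ⟨u, i0, hi0, hu⟩ := (h𝔭.isMaximal h𝔭0).exists_inv h2
  obtain ⟨y, hy⟩ : ∃ y : 𝓞 F, y = -(u * a1) := ⟨_, rfl⟩
  have hyp : y ∈ 𝔭 := by
    rw [hy]
    exact 𝔭.neg_mem (𝔭.mul_mem_left _ hc1)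
  obtain ⟨ε, hε⟩ : ∃ ε : 𝓞 F, ε = a1 + 2 * y := ⟨_, rfl⟩
  have hεp : ε ∈ 𝔭 ^ 2 := by
    have h1 : ε = a1 * i0 := by
      rw [hε, hy]
      linear_combination (-a1) * hu
    rw [h1, pow_two]
    exact Ideal.mul_mem_mul hc1 hi0
  obtain ⟨ρ, hρ⟩ : ∃ ρ : L, ρ = aeval t Q + algebraMap F L (y : F) := ⟨_, rfl⟩
  -- the pairings
  have htm : ∀ (x : F) (z : L), hG.top (algebraMap F L x * z) = x * hG.top z := by
    intro x z
    rw [← Algebra.smul_def, map_smul, smul_eq_mul]
  have hle : ∀ p : F[X], p.natDegree < 2 * g + 1 → hG.top (aeval t p) = p.coeff (2 * g) := by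
    intro p hp
    rw [ht]
    exact top_le_sh hG c p hp
  have hlef : ∀ v : (𝓞 F)[X], v.natDegree < 2 * g + 1 →
      hG.top (aeval t v) = (v.coeff (2 * g) : F) := by
    intro v hv
    rw [← aeval_fF, hle _ (natDegree_map_le.trans_lt hv)]
    exact coeff_map _ _
  have hint : ∀ v : (𝓞 F)[X], IsIntegral ℤ (hG.top (aeval t v)) := by
    intro v
    rw [ht]
    exact top_sh hG c v
  have hT : ∀ i, i < 2 * g → hG.top (t ^ i) = 0 := by
    intro i hi
    have h1 := hle (X ^ i) (by rw [natDegree_X_pow]; omega)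
    rw [map_pow, aeval_X, coeff_X_pow, if_neg (by omega)] at h1
    exact h1
  have hTg : hG.top (t ^ (2 * g)) = 1 := by
    have h1 := hle (X ^ (2 * g)) (by rw [natDegree_X_pow]; omega)
    rw [map_pow, aeval_X, coeff_X_pow, if_pos rfl] at h1
    exact h1
  have hT0 : hG.top (1 : L) = 0 := by
    have := hT 0 (by omega)
    rwa [pow_zero] at this
  have hTi : ∀ i, IsIntegral ℤ (hG.top (t ^ i)) := by
    intro i
    have := hint (X ^ i)
    rwa [map_pow, aeval_X] at this
  have hTa : ∀ x : F, hG.top (algebraMap F L x) = 0 := by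
    intro x
    have := htm x 1
    rwa [mul_one, hT0, mul_zero] at this
  have hTQ : hG.top (aeval t Q) = 1 := by
    rw [hlef Q hQd, hQ1]
    exact map_one _
  have hTG : hG.top (aeval t G) = 0 := by
    rw [hlef G hGd', hG0]
    exact map_zero _
  have hTρ : hG.top ρ = 1 := by
    rw [hρ, map_add, hTQ, hTa, add_zero]
  have htρ : t * ρ = -algebraMap F L (a0 : F) + algebraMap F L (y : F) * t := by
    rw [hρ, mul_add, hQe]
    ring
  have hTtρ : ∀ i, 1 ≤ i → i < 2 * g → hG.top (t ^ i * ρ) = 0 := by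
    intro i hi hi2
    obtain ⟨k, rfl⟩ : ∃ k, i = k + 1 := ⟨i - 1, by omega⟩
    have h1 : t ^ (k + 1) * ρ = algebraMap F L (y : F) * t ^ (k + 1) -
        algebraMap F L (a0 : F) * t ^ k := by
      rw [pow_succ, mul_assoc, htρ]
      ring
    rw [h1, map_sub, htm, htm, hT _ hi2, hT k (by omega), mul_zero, mul_zero, sub_zero]
  have hTρρ : hG.top (ρ * ρ) = (ε : F) := by
    have h1 : ρ * ρ = algebraMap F L (ε : F) * aeval t Q -
        algebraMap F L (a0 : F) * aeval t G + algebraMap F L ((y : F) * y) := by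
      have h3 : (ε : F) = (a1 : F) + 2 * (y : F) := by
        rw [hε, two_mul, two_mul]
        push_cast
        ring
      rw [h3, hρ]
      simp only [map_add, map_mul, map_ofNat]
      linear_combination (aeval t Q) * hQG + (aeval t G) * hQe
    rw [h1, map_add, map_sub, htm, htm, hTQ, hTG, hTa, mul_one, mul_zero, sub_zero, add_zero]
  -- the lattice
  obtain ⟨Λ, hfg, hΛ1, hΛ2, hΛ3, hΛi⟩ : ∃ Λ : Submodule (𝓞 F) L, Λ.FG ∧
      (∀ p ∈ 𝔭, algebraMap F L (p : F) ∈ Λ) ∧ (∀ i, 1 ≤ i → i < 2 * g → t ^ i ∈ Λ) ∧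
      (∀ a ∈ Jn 𝔭, algebraMap F L a * ρ ∈ Λ) ∧
      ∀ N : Submodule (𝓞 F) L, (∀ p ∈ 𝔭, algebraMap F L (p : F) ∈ N) →
        (∀ i, 1 ≤ i → i < 2 * g → t ^ i ∈ N) → (∀ a ∈ Jn 𝔭, algebraMap F L a * ρ ∈ N) →
        Λ ≤ N := by
    refine ⟨Submodule.map (Algebra.linearMap (𝓞 F) L) 𝔭 ⊔
      Submodule.span (𝓞 F) ((fun i : ℕ => t ^ i) '' (Finset.Ico 1 (2 * g) : Set ℕ)) ⊔
      Submodule.map ((LinearMap.toSpanSingleton F L ρ).restrictScalars (𝓞 F)) (Jn 𝔭),
      ?_, ?_, ?_, ?_, ?_⟩
    · refine Submodule.FG.sup (Submodule.FG.sup ?_ ?_) ?_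
      · exact Submodule.FG.map _ (IsNoetherian.noetherian 𝔭)
      · exact Submodule.fg_span ((Finset.finite_toSet _).image _)
      · exact Submodule.FG.map _ fg_Jn
    · intro p hp
      exact Submodule.mem_sup_left (Submodule.mem_sup_left ⟨p, hp, rfl⟩)
    · intro i hi hi2
      exact Submodule.mem_sup_left (Submodule.mem_sup_right (Submodule.subset_span
        ⟨i, by rw [Finset.mem_coe, Finset.mem_Ico]; exact ⟨hi, hi2⟩, rfl⟩))
    · intro a ha
      refine Submodule.mem_sup_right ⟨a, ha, ?_⟩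
      rw [LinearMap.restrictScalars_apply, LinearMap.toSpanSingleton_apply, Algebra.smul_def]
    · intro N h1 h3 h4
      refine sup_le (sup_le ?_ ?_) ?_
      · rintro _ ⟨p, hp, rfl⟩
        exact h1 p hp
      · rw [Submodule.span_le]
        rintro _ ⟨i, hi, rfl⟩
        rw [Finset.mem_coe, Finset.mem_Ico] at hi
        exact h3 i hi.1 hi.2
      · rintro _ ⟨a, ha, rfl⟩
        rw [LinearMap.restrictScalars_apply, LinearMap.toSpanSingleton_apply, Algebra.smul_def]
        exact h4 a ha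
  have hsm : ∀ (m : 𝓞 F) (x : L), m • x = algebraMap F L (m : F) * x := fun m x => by
    rw [Algebra.smul_def]
    rfl
  have hΛρ : ρ ∈ Λ := by
    have h1 := hΛ3 _ (one_Jn h𝔭0 1)
    have h3 : ((1 : 𝓞 F) : F) = 1 := map_one _
    rwa [h3, map_one, one_mul] at h1
  -- stability
  have hQs : ∑ i ∈ Finset.range (2 * g), algebraMap F L (Q.coeff i : F) * t ^ i ∈ Λ := by
    refine Submodule.sum_mem _ fun i hi => ?_
    rcases Nat.eq_zero_or_pos i with h0 | h0
    · subst h0
      rw [pow_zero, mul_one, hQc, hH1]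
      exact hΛ1 _ hc1
    · rw [← hsm]
      exact Λ.smul_mem _ (hΛ2 i h0 (Finset.mem_range.1 hi))
  have hQsum : aeval t Q = ∑ i ∈ Finset.range (2 * g), algebraMap F L (Q.coeff i : F) * t ^ i +
      t ^ (2 * g) := by
    rw [aeval_eq_sum_range' hQd, Finset.sum_range_succ, hQ1, one_smul]
    congr 1
    exact Finset.sum_congr rfl fun i _ => hsm _ _
  have hst : ∀ x ∈ Λ, t * x ∈ Λ := by
    have h1 : Λ ≤ Λ.comap (LinearMap.mulLeft (𝓞 F) t) := by
      refine hΛi _ ?_ ?_ ?_
      · intro p hp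
        rw [Submodule.mem_comap, LinearMap.mulLeft_apply, mul_comm, ← hsm]
        have := hΛ2 1 le_rfl (by omega)
        rw [pow_one] at this
        exact Λ.smul_mem _ this
      · intro i hi hi2
        rw [Submodule.mem_comap, LinearMap.mulLeft_apply, ← pow_succ']
        rcases Nat.lt_or_ge (i + 1) (2 * g) with h3 | h3
        · exact hΛ2 _ (by omega) h3
        · have h4 : i + 1 = 2 * g := by omega
          rw [h4]
          have h5 : t ^ (2 * g) = ρ - algebraMap F L (y : F) -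
              ∑ i ∈ Finset.range (2 * g), algebraMap F L (Q.coeff i : F) * t ^ i := by
            rw [hρ, hQsum]
            ring
          rw [h5]
          exact Λ.sub_mem (Λ.sub_mem hΛρ (hΛ1 _ hyp)) hQs
      · intro a ha
        rw [Submodule.mem_comap, LinearMap.mulLeft_apply]
        obtain ⟨p, hp, hpe⟩ := mem_p2 h𝔭0 ha hc0
        obtain ⟨m, hm⟩ := int_iff.1 ((mem_Jn h𝔭0).1 ha y hyp)
        have h3 : t * (algebraMap F L a * ρ) = m • t - algebraMap F L (p : F) := by
          rw [hsm, hm, hpe, map_mul, map_mul]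
          linear_combination (algebraMap F L a) * htρ
        rw [h3]
        have := hΛ2 1 le_rfl (by omega)
        rw [pow_one] at this
        exact Λ.sub_mem (Λ.smul_mem _ this) (hΛ1 p hp)
    exact fun x hx => h1 hx
  -- integrality
  have hD1 : ∀ p ∈ 𝔭, Λ ≤ D hG (algebraMap F L (p : F)) := by
    intro p hp
    refine hΛi _ ?_ ?_ ?_
    · intro p' _
      rw [mem_D, htm, hTa, mul_zero]
      exact isIntegral_zero
    · intro i _ hi
      rw [mem_D, htm, hT i hi, mul_zero]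
      exact isIntegral_zero
    · intro a ha
      rw [mem_D, htm, htm, hTρ, mul_one, mul_comm]
      exact (mem_Jn h𝔭0).1 ha p hp
  have hD2 : ∀ i, 1 ≤ i → i < 2 * g → Λ ≤ D hG (t ^ i) := by
    intro i hi hi2
    refine hΛi _ ?_ ?_ ?_
    · intro p _
      rw [mem_D, mul_comm, htm, hT i hi2, mul_zero]
      exact isIntegral_zero
    · intro j _ _
      rw [mem_D, ← pow_add]
      exact hTi _
    · intro a _
      have h1 : t ^ i * (algebraMap F L a * ρ) = algebraMap F L a * (t ^ i * ρ) := by ring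
      rw [mem_D, h1, htm, hTtρ i hi hi2, mul_zero]
      exact isIntegral_zero
  have hD3 : ∀ a ∈ Jn 𝔭, Λ ≤ D hG (algebraMap F L a * ρ) := by
    intro a ha
    refine hΛi _ ?_ ?_ ?_
    · intro p hp
      rw [mem_D, mul_comm, htm, htm, hTρ, mul_one, mul_comm]
      exact (mem_Jn h𝔭0).1 ha p hp
    · intro i hi hi2
      have h1 : algebraMap F L a * ρ * t ^ i = algebraMap F L a * (t ^ i * ρ) := by ring
      rw [mem_D, h1, htm, hTtρ i hi hi2, mul_zero]
      exact isIntegral_zero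
    · intro b hb
      have h1 : algebraMap F L a * ρ * (algebraMap F L b * ρ) =
          algebraMap F L a * (algebraMap F L b * (ρ * ρ)) := by ring
      rw [mem_D, h1, htm, htm, hTρρ]
      exact int_Jn2 h𝔭0 ha hb hεp
  have hDD : ∀ x ∈ Λ, Λ ≤ D hG x := by
    intro x hx
    refine hΛi _ ?_ ?_ ?_
    · intro p hp
      rw [mem_D, mul_comm]
      exact hD1 p hp hx
    · intro i hi hi2
      rw [mem_D, mul_comm]
      exact hD2 i hi hi2 hx
    · intro a ha
      rw [mem_D, mul_comm]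
      exact hD3 a ha hx
  have hcon : ∀ j : 𝓞 F, algebraMap F L (j : F) ∈ Λ → j ∈ 𝔭 := by
    intro j hj
    obtain ⟨p, hp, hpe⟩ := mem_p (𝔭 := 𝔭) h𝔭0 (x := (j : F)) (by
      intro a ha
      have h1 := hD3 a ha hj
      rw [mem_D, mul_comm, htm, htm, hTρ, mul_one, mul_comm] at h1
      exact h1)
    have h3 : p = j := RingOfIntegers.coe_injective hpe
    rwa [← h3]
  refine ⟨Λ, ⟨hfg, ?_, ?_, ?_, ?_⟩, hΛ1, hcon⟩
  · -- full rank
    intro x
    obtain ⟨P, -, hP⟩ := rep hG (c : F) x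
    rw [← ht] at hP
    obtain ⟨b, hb, hbP⟩ := IsLocalization.integerNormalization_spec (𝓞 F)⁰ P
    obtain ⟨p, hp, hp0⟩ := Submodule.exists_mem_ne_zero_of_ne_bot h𝔭0
    refine ⟨p * b, mul_ne_zero hp0 (nonZeroDivisors.ne_zero hb), ?_⟩
    obtain ⟨v, hv⟩ : ∃ v : (𝓞 F)[X], v = IsLocalization.integerNormalization (𝓞 F)⁰ P :=
      ⟨_, rfl⟩
    rw [← hv] at hbP
    have h1 : b • x = aeval t v := by
      rw [← aeval_fF, fF, hbP, hP]
      rw [← algebraMap_smul F b P, map_smul, algebraMap_smul]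
    rw [mul_smul, h1]
    have h3 : ∀ i, p • t ^ i ∈ Λ := by
      intro i
      induction i with
      | zero =>
        rw [pow_zero, hsm, mul_one]
        exact hΛ1 p hp
      | succ k ih =>
        rw [pow_succ', ← mul_smul_comm]
        exact hst _ ih
    rw [aeval_eq_sum_range, Finset.smul_sum]
    refine Submodule.sum_mem _ fun i _ => ?_
    rw [smul_comm]
    exact Λ.smul_mem _ (h3 i)
  · intro x hx
    rw [hθ, add_mul, ← hsm]
    exact Λ.add_mem (hst x hx) (Λ.smul_mem _ hx)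
  · intro x hx z hz
    rw [div_one]
    exact hDD x hx hz
  · -- duality
    intro z hz
    simp only [div_one] at hz
    obtain ⟨P, hP, hzP⟩ := rep hG (c : F) z
    rw [← ht] at hzP
    obtain ⟨a, ha⟩ : ∃ a : F, a = P.coeff (2 * g) := ⟨_, rfl⟩
    obtain ⟨R, hR⟩ : ∃ R : F[X], R = P - C a * (fF Q + C (y : F)) := ⟨_, rfl⟩
    have hRc : ∀ n, R.coeff n = P.coeff n - a * ((fF Q).coeff n + (C (y : F)).coeff n) := by
      intro n
      rw [hR, coeff_sub, coeff_C_mul, coeff_add]
    have hRd : R.natDegree < 2 * g := by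
      have h1 : R.natDegree ≤ 2 * g - 1 := by
        rw [natDegree_le_iff_coeff_eq_zero]
        intro n hn
        rw [hRc, coeff_C, if_neg (by omega), add_zero, fF, coeff_map]
        rcases Nat.lt_or_ge (2 * g) n with h3 | h3
        · rw [coeff_eq_zero_of_natDegree_lt (by omega), coeff_eq_zero_of_natDegree_lt (by omega),
            map_zero, mul_zero, sub_zero]
        · have h4 : n = 2 * g := by omega
          rw [h4, hQ1, ← ha, map_one, mul_one, sub_self]
      omega
    have hzR : z = ∑ i ∈ Finset.range (2 * g), algebraMap F L (R.coeff i) * t ^ i +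
        algebraMap F L a * ρ := by
      have h1 : ∑ i ∈ Finset.range (2 * g), algebraMap F L (R.coeff i) * t ^ i = aeval t R := by
        rw [aeval_eq_sum_range' hRd]
        exact Finset.sum_congr rfl fun i _ => (Algebra.smul_def _ _).symm
      rw [h1, hR, map_sub, map_mul, map_add, aeval_C, aeval_C, aeval_fF, ← hzP, hρ]
      ring
    have hpair : ∀ w : L, hG.top (w * z) = ∑ i ∈ Finset.range (2 * g),
        R.coeff i * hG.top (w * t ^ i) + a * hG.top (w * ρ) := by
      intro w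
      have h1 : w * z = ∑ i ∈ Finset.range (2 * g), algebraMap F L (R.coeff i) * (w * t ^ i) +
          algebraMap F L a * (w * ρ) := by
        rw [hzR, mul_add, Finset.mul_sum]
        congr 1
        · exact Finset.sum_congr rfl fun i _ => by ring
        · ring
      rw [h1, map_add, map_sum, htm]
      congr 1
      exact Finset.sum_congr rfl fun i _ => htm _ _
    -- the coefficient of `ρ`
    have haJ : a ∈ Jn 𝔭 := by
      rw [mem_Jn h𝔭0]
      intro p hp
      have h1 := hz _ (hΛ1 p hp)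
      rw [htm] at h1
      have h3 := hpair 1
      rw [one_mul, one_mul, hTρ, mul_one, Finset.sum_eq_zero, zero_add] at h3
      · rw [h3, mul_comm] at h1
        exact h1
      · intro i hi
        rw [one_mul, hT i (Finset.mem_range.1 hi), mul_zero]
    -- the coefficients in the middle
    have hmid : ∀ k, 1 ≤ k → k < 2 * g → IsIntegral ℤ (R.coeff (2 * g - k)) := by
      intro k
      induction k using Nat.strong_induction_on with
      | _ k ih =>
        intro hk1 hk2
        have h1 := hz _ (hΛ2 k hk1 hk2)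
        rw [hpair, hTtρ k hk1 hk2, mul_zero, add_zero,
          ← Finset.add_sum_erase _ _ (Finset.mem_range.2 (by omega : 2 * g - k < 2 * g)),
          ← pow_add, Nat.add_sub_cancel' hk2.le, hTg, mul_one] at h1
        have h3 : IsIntegral ℤ (∑ i ∈ (Finset.range (2 * g)).erase (2 * g - k),
            R.coeff i * hG.top (t ^ k * t ^ i)) := by
          refine IsIntegral.sum _ fun i hi => ?_
          rw [Finset.mem_erase, Finset.mem_range] at hi
          rw [← pow_add]
          rcases Nat.lt_or_ge i (2 * g - k) with h4 | h4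
          · rw [hT _ (by omega), mul_zero]
            exact isIntegral_zero
          · have h5 := ih (2 * g - i) (by omega) (by omega) (by omega)
            have h6 : 2 * g - (2 * g - i) = i := by omega
            rw [h6] at h5
            exact h5.mul (hTi _)
        have h4 := h1.sub h3
        rwa [add_sub_cancel_right] at h4
    -- the constant coefficient
    obtain ⟨p0, hp0, hp0e⟩ : ∃ p ∈ 𝔭, (p : F) = R.coeff 0 := by
      refine mem_p h𝔭0 fun b hb => ?_
      have h1 := hz _ (hΛ3 b hb)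
      rw [mul_assoc, htm, hpair, hTρρ, Finset.sum_eq_single 0] at h1
      · rw [pow_zero, mul_one, hTρ, mul_one, mul_add] at h1
        have h3 := h1.sub (int_Jn2 h𝔭0 hb haJ hεp)
        rwa [add_sub_cancel_right] at h3
      · intro i hi hi0
        rw [mul_comm ρ, hTtρ i (by omega) (Finset.mem_range.1 hi), mul_zero]
      · intro h3
        exact absurd (Finset.mem_range.2 (by omega)) h3
    rw [hzR]
    refine Λ.add_mem (Submodule.sum_mem _ fun i hi => ?_) (hΛ3 a haJ)
    have hi2 := Finset.mem_range.1 hi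
    rcases Nat.eq_zero_or_pos i with h0 | h0
    · subst h0
      rw [pow_zero, mul_one, ← hp0e]
      exact hΛ1 p0 hp0
    · have h1 := hmid (2 * g - i) (by omega) (by omega)
      have h3 : 2 * g - (2 * g - i) = i := by omega
      rw [h3] at h1
      obtain ⟨m, hm⟩ := int_iff.1 h1
      rw [← hm, ← hsm]
      exact Λ.smul_mem _ (hΛ2 i h0 hi2)

end Pool.Agent.N225.PF
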